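import Mathlib
import Pool.Agent.TH119.IR.Alg

/-!
# Rational forms of absolutely irreducible representations
-/

set_option linter.unusedSectionVars false
set_option linter.style.haveILetI false

namespace Pool.Agent.TH119.RF

open Matrix
open Pool.Agent.TH119.OP (SS sp mem_sp)
open Pool.Agent.TH119.IR (toRep)

variable {Q : Type*} [Group Q] {n : ℕ}

/-- Maschke's theorem. -/
theorem ss_of_finite {k : Type*} [Field k] [CharZero k] [Finite Q] (ρ : Q →* GL (Fin n) k) :
    SS ρ := by
  intro W hW
  haveI : NeZero (Nat.card Q : k) := ⟨Nat.cast_ne_zero.2 Nat.card_pos.ne'⟩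
  have hs : (toRep ρ).IsSemisimpleRepresentation := inferInstance
  obtain ⟨W', hc⟩ := hs.exists_isCompl ⟨W, fun g x hx => by
    change Matrix.toLin' (ρ g : Matrix (Fin n) (Fin n) k) x ∈ W
    rw [Matrix.toLin'_apply]
    exact hW g x hx⟩
  refine ⟨W'.toSubmodule, fun g x hx => ?_, ?_⟩
  · have h1 := W'.apply_mem_toSubmodule g hx
    change Matrix.toLin' (ρ g : Matrix (Fin n) (Fin n) k) x ∈ _ at h1
    rwa [Matrix.toLin'_apply] at h1
  · rw [isCompl_iff, disjoint_iff, codisjoint_iff] at hc ⊢
    refine ⟨?_, ?_⟩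
    · have := congrArg Subrepresentation.toSubmodule hc.1
      exact this
    · have := congrArg Subrepresentation.toSubmodule hc.2
      exact this

/-- A spanning set of vectors contains a basis. -/
theorem exists_basis {k : Type*} [Field k] {ι : Type*} (f : ι → (Fin n → k))
    (h : Submodule.span k (Set.range f) = ⊤) :
    ∃ g : Fin n → ι, LinearIndependent k fun i => f (g i) := by
  obtain ⟨b, hb1, hb2, hb3⟩ := Submodule.exists_fun_fin_finrank_span_eq k (Set.range f)
  have hd : Module.finrank k (Submodule.span k (Set.range f)) = n := by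
    rw [h, finrank_top, Module.finrank_fin_fun]
  choose g hg using hb1
  have hg' : (fun i => f (g i)) = b := funext hg
  rw [← hg'] at hb3
  exact ⟨g ∘ Fin.cast hd.symm, hb3.comp _ (Fin.cast_injective _)⟩

/-- **Descent.** An absolutely irreducible representation with a matrix of rank one whose products
with the representation have traces in a subfield can be realised over the subfield. -/
theorem descent {Ω E' : Type*} [Field Ω] [Field E'] (f : E' →+* Ω)
    (r : Q →* GL (Fin n) Ω) (hsp : sp r = ⊤) (u w : Fin n → Ω) (hu : u ≠ 0) (hw : w ≠ 0)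
    (htr : ∀ q, ∃ c : E', f c = ((r q : Matrix (Fin n) (Fin n) Ω) * vecMulVec u w).trace) :
    ∃ (X : GL (Fin n) Ω) (r' : Q →* GL (Fin n) E'),
      ∀ q, (r q : Matrix (Fin n) (Fin n) Ω) * X =
        X * (r' q : Matrix (Fin n) (Fin n) E').map f := by
  classical
  obtain ⟨j0, hj0⟩ : ∃ j, u j ≠ 0 := by
    by_contra hcon
    push Not at hcon
    exact hu (funext hcon)
  obtain ⟨i0, hi0⟩ : ∃ j, w j ≠ 0 := by
    by_contra hcon
    push Not at hcon
    exact hw (funext hcon)
  -- the columns
  have hcol : Submodule.span Ω (Set.range fun q =>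
      (r q : Matrix (Fin n) (Fin n) Ω).mulVec u) = ⊤ := by
    rw [eq_top_iff]
    intro y _
    have h1 : ∀ M ∈ sp r, M.mulVec u ∈ Submodule.span Ω (Set.range fun q =>
        (r q : Matrix (Fin n) (Fin n) Ω).mulVec u) := by
      intro M hM
      unfold sp at hM
      induction hM using Submodule.span_induction with
      | mem M hM => obtain ⟨g, rfl⟩ := hM; exact Submodule.subset_span ⟨g, rfl⟩
      | zero => rw [Matrix.zero_mulVec]; exact Submodule.zero_mem _
      | add a b _ _ ha hb => rw [Matrix.add_mulVec]; exact Submodule.add_mem _ ha hb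
      | smul c a _ ha => rw [Matrix.smul_mulVec]; exact Submodule.smul_mem _ c ha
    have h2 := h1 (vecMulVec y (Pi.single j0 (u j0)⁻¹)) (by rw [hsp]; trivial)
    have h3 : (vecMulVec y (Pi.single j0 (u j0)⁻¹)).mulVec u = y := by
      ext i
      rw [Matrix.mulVec, dotProduct, Finset.sum_eq_single j0]
      · rw [vecMulVec_apply, Pi.single_eq_same, mul_assoc, inv_mul_cancel₀ hj0, mul_one]
      · intro m _ hm
        rw [vecMulVec_apply, Pi.single_eq_of_ne hm, mul_zero, zero_mul]
      · intro hj'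
        exact absurd (Finset.mem_univ j0) hj'
    rwa [h3] at h2
  have hrow : Submodule.span Ω (Set.range fun q =>
      Matrix.vecMul w (r q : Matrix (Fin n) (Fin n) Ω)) = ⊤ := by
    rw [eq_top_iff]
    intro y _
    have h1 : ∀ M ∈ sp r, Matrix.vecMul w M ∈ Submodule.span Ω (Set.range fun q =>
        Matrix.vecMul w (r q : Matrix (Fin n) (Fin n) Ω)) := by
      intro M hM
      unfold sp at hM
      induction hM using Submodule.span_induction with
      | mem M hM => obtain ⟨g, rfl⟩ := hM; exact Submodule.subset_span ⟨g, rfl⟩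
      | zero => rw [Matrix.vecMul_zero]; exact Submodule.zero_mem _
      | add a b _ _ ha hb => rw [Matrix.vecMul_add]; exact Submodule.add_mem _ ha hb
      | smul c a _ ha => rw [Matrix.vecMul_smul]; exact Submodule.smul_mem _ c ha
    have h2 := h1 (vecMulVec (Pi.single i0 (w i0)⁻¹) y) (by rw [hsp]; trivial)
    have h3 : Matrix.vecMul w (vecMulVec (Pi.single i0 (w i0)⁻¹) y) = y := by
      ext i
      rw [Matrix.vecMul, dotProduct, Finset.sum_eq_single i0]
      · rw [vecMulVec_apply, Pi.single_eq_same, ← mul_assoc, mul_inv_cancel₀ hi0, one_mul]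
      · intro m _ hm
        rw [vecMulVec_apply, Pi.single_eq_of_ne hm, zero_mul, mul_zero]
      · intro hj'
        exact absurd (Finset.mem_univ i0) hj'
    rwa [h3] at h2
  obtain ⟨g, hg⟩ := exists_basis _ hcol
  obtain ⟨h, hh⟩ := exists_basis _ hrow
  set X : Matrix (Fin n) (Fin n) Ω :=
    Matrix.of fun i k => ((r (g k) : Matrix (Fin n) (Fin n) Ω).mulVec u) i with hX
  set Y : Matrix (Fin n) (Fin n) Ω :=
    Matrix.of fun j i => (Matrix.vecMul w (r (h j) : Matrix (Fin n) (Fin n) Ω)) i with hY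
  have hXu : IsUnit X := Matrix.linearIndependent_cols_iff_isUnit.1 hg
  have hYu : IsUnit Y := Matrix.linearIndependent_rows_iff_isUnit.1 hh
  -- the entries
  have hent : ∀ q, ∀ j k, ∃ c : E', f c = (Y * (r q : Matrix (Fin n) (Fin n) Ω) * X) j k := by
    intro q j k
    obtain ⟨c, hc⟩ := htr (h j * q * g k)
    refine ⟨c, hc.trans ?_⟩
    have h1 : (Y * (r q : Matrix (Fin n) (Fin n) Ω) * X) j k =
        Matrix.vecMul w (r (h j) : Matrix (Fin n) (Fin n) Ω) ⬝ᵥ
          ((r q : Matrix (Fin n) (Fin n) Ω).mulVec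
            ((r (g k) : Matrix (Fin n) (Fin n) Ω).mulVec u)) := by
      rw [mul_assoc, Matrix.mul_apply', dotProduct_comm, dotProduct_comm]
      rfl
    rw [h1, ← Matrix.dotProduct_mulVec, Matrix.mulVec_mulVec, Matrix.mulVec_mulVec, map_mul,
      map_mul, Units.val_mul, Units.val_mul, Matrix.mul_vecMulVec, Matrix.trace_vecMulVec,
      dotProduct_comm, mul_assoc]
  choose m hm using hent
  have hmap : ∀ q, (Matrix.of (m q) : Matrix (Fin n) (Fin n) E').map f =
      Y * (r q : Matrix (Fin n) (Fin n) Ω) * X := by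
    intro q
    ext j k
    rw [Matrix.map_apply, Matrix.of_apply, hm]
  have hfm : Function.Injective fun M : Matrix (Fin n) (Fin n) E' => M.map f :=
    Matrix.map_injective f.injective
  obtain ⟨Xg, hXg⟩ := hXu
  obtain ⟨Yg, hYg⟩ := hYu
  -- the Gram matrix is invertible
  set G0 : Matrix (Fin n) (Fin n) E' := Matrix.of (m 1) with hG0
  have hG0m : G0.map f = Yg * Xg := by
    rw [hG0, hmap, map_one, Units.val_one, mul_one, hYg, hXg]
  have hG0u : IsUnit G0 := by
    rw [Matrix.isUnit_iff_isUnit_det, isUnit_iff_ne_zero]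
    intro h0
    have h1 := congrArg f h0
    rw [RingHom.map_det, map_zero, RingHom.mapMatrix_apply, hG0m, Matrix.det_mul] at h1
    have h2 : IsUnit ((Yg : Matrix (Fin n) (Fin n) Ω).det) :=
      (Matrix.isUnit_iff_isUnit_det _).1 Yg.isUnit
    have h3 : IsUnit ((Xg : Matrix (Fin n) (Fin n) Ω).det) :=
      (Matrix.isUnit_iff_isUnit_det _).1 Xg.isUnit
    exact (h2.mul h3).ne_zero h1
  obtain ⟨Gg, hGg⟩ := hG0u
  have hGinv : ((Gg⁻¹ : GL (Fin n) E') : Matrix (Fin n) (Fin n) E').map f =
      ((Xg⁻¹ : GL (Fin n) Ω) : Matrix (Fin n) (Fin n) Ω) *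
        ((Yg⁻¹ : GL (Fin n) Ω) : Matrix (Fin n) (Fin n) Ω) := by
    have h1 : (((Gg⁻¹ : GL (Fin n) E') : Matrix (Fin n) (Fin n) E').map f) *
        ((Yg : Matrix (Fin n) (Fin n) Ω) * Xg) = 1 := by
      rw [← hG0m, ← hGg, ← Matrix.map_mul, ← Units.val_mul, inv_mul_cancel, Units.val_one,
        Matrix.map_one f (map_zero f) (map_one f)]
    have h2 : ((Yg : Matrix (Fin n) (Fin n) Ω) * Xg) *
        (((Xg⁻¹ : GL (Fin n) Ω) : Matrix (Fin n) (Fin n) Ω) *
        ((Yg⁻¹ : GL (Fin n) Ω) : Matrix (Fin n) (Fin n) Ω)) = 1 := by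
      rw [← Units.val_mul, ← Units.val_mul, ← Units.val_mul, ← _root_.mul_inv_rev,
        mul_inv_cancel, Units.val_one]
    exact left_inv_eq_right_inv h1 h2
  have hr'map : ∀ q, (((Gg⁻¹ : GL (Fin n) E') : Matrix (Fin n) (Fin n) E') *
      Matrix.of (m q)).map f = ((Xg⁻¹ : GL (Fin n) Ω) : Matrix (Fin n) (Fin n) Ω) * r q * Xg := by
    intro q
    rw [Matrix.map_mul, hmap, hGinv, ← hYg, ← hXg]
    have h1 : ((Yg⁻¹ : GL (Fin n) Ω) : Matrix (Fin n) (Fin n) Ω) * Yg = 1 := by
      rw [← Units.val_mul, inv_mul_cancel, Units.val_one]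
    calc _ = ((Xg⁻¹ : GL (Fin n) Ω) : Matrix (Fin n) (Fin n) Ω) *
        (((Yg⁻¹ : GL (Fin n) Ω) : Matrix (Fin n) (Fin n) Ω) * Yg) * r q * Xg := by
          simp only [mul_assoc]
      _ = _ := by rw [h1, mul_one]
  let A : Q →* Matrix (Fin n) (Fin n) E' :=
    { toFun := fun q => ((Gg⁻¹ : GL (Fin n) E') : Matrix (Fin n) (Fin n) E') * Matrix.of (m q)
      map_one' := by
        apply hfm
        change Matrix.map _ f = Matrix.map _ f
        rw [hr'map, map_one, Units.val_one, mul_one, ← Units.val_mul, inv_mul_cancel,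
          Units.val_one, Matrix.map_one f (map_zero f) (map_one f)]
      map_mul' := fun a b => by
        apply hfm
        change Matrix.map _ f = Matrix.map _ f
        rw [hr'map, map_mul, Units.val_mul]
        conv_rhs => rw [Matrix.map_mul, hr'map, hr'map]
        have h1 : (Xg : Matrix (Fin n) (Fin n) Ω) *
            ((Xg⁻¹ : GL (Fin n) Ω) : Matrix (Fin n) (Fin n) Ω) = 1 := by
          rw [← Units.val_mul, mul_inv_cancel, Units.val_one]
        calc _ = ((Xg⁻¹ : GL (Fin n) Ω) : Matrix (Fin n) (Fin n) Ω) * r a *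
            ((Xg : Matrix (Fin n) (Fin n) Ω) *
              ((Xg⁻¹ : GL (Fin n) Ω) : Matrix (Fin n) (Fin n) Ω)) * r b * Xg := by
              rw [h1, mul_one]; simp only [mul_assoc]
          _ = _ := by simp only [mul_assoc] }
  refine ⟨Xg, A.toHomUnits, fun q => ?_⟩
  have h1 : (A.toHomUnits q : Matrix (Fin n) (Fin n) E') =
      ((Gg⁻¹ : GL (Fin n) E') : Matrix (Fin n) (Fin n) E') * Matrix.of (m q) :=
    MonoidHom.coe_toHomUnits _ _
  have h2 : (Xg : Matrix (Fin n) (Fin n) Ω) *
      ((Xg⁻¹ : GL (Fin n) Ω) : Matrix (Fin n) (Fin n) Ω) = 1 := by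
    rw [← Units.val_mul, mul_inv_cancel, Units.val_one]
  rw [h1, hr'map]
  calc _ = ((Xg : Matrix (Fin n) (Fin n) Ω) *
      ((Xg⁻¹ : GL (Fin n) Ω) : Matrix (Fin n) (Fin n) Ω)) * (r q * Xg) := by
        rw [h2, one_mul]
    _ = _ := by simp only [mul_assoc]

/-- A simple root of the characteristic polynomial gives a matrix of rank one. -/
theorem rank_one {Ω : Type*} [Field Ω] (A : Matrix (Fin n) (Fin n) Ω) (a : Ω)
    (h : Polynomial Ω) (hh : A.charpoly = (Polynomial.X - Polynomial.C a) * h)
    (ha : h.eval a ≠ 0) :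
    ∃ u w : Fin n → Ω, u ≠ 0 ∧ w ≠ 0 ∧ Polynomial.aeval A h = vecMulVec u w := by
  classical
  have hroot : A.charpoly.IsRoot a := by
    rw [hh, Polynomial.IsRoot, Polynomial.eval_mul]
    simp
  have hne : A.charpoly ≠ 0 := A.charpoly_monic.ne_zero
  have hmult : A.charpoly.rootMultiplicity a = 1 := by
    have h0 : (Polynomial.X - Polynomial.C a) * h ≠ 0 := by rw [← hh]; exact hne
    rw [hh, Polynomial.rootMultiplicity_mul h0, Polynomial.rootMultiplicity_X_sub_C_self,
      Polynomial.rootMultiplicity_eq_zero ha]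
  have hev : Module.End.HasEigenvalue (Matrix.toLin' A) a := by
    rw [Module.End.hasEigenvalue_iff_isRoot_charpoly, Matrix.charpoly_toLin']
    exact hroot
  obtain ⟨u, hu⟩ := hev.exists_hasEigenvector
  have hfin : Module.finrank Ω (Module.End.eigenspace (Matrix.toLin' A) a) ≤ 1 := by
    refine (LinearMap.finrank_eigenspace_le (Matrix.toLin' A) a).trans ?_
    rw [Matrix.charpoly_toLin', hmult]
  have hspan : ∀ y ∈ Module.End.eigenspace (Matrix.toLin' A) a, ∃ c : Ω, c • u = y := by
    have h1 : Module.finrank Ω (Module.End.eigenspace (Matrix.toLin' A) a) = 1 := by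
      refine le_antisymm hfin ?_
      haveI : Nontrivial (Module.End.eigenspace (Matrix.toLin' A) a) :=
        ⟨⟨⟨u, hu.1⟩, 0, fun h0 => hu.2 (congrArg Subtype.val h0)⟩⟩
      exact Module.finrank_pos
    intro y hy
    obtain ⟨c, hc⟩ := (finrank_eq_one_iff_of_nonzero' (⟨u, hu.1⟩ :
      Module.End.eigenspace (Matrix.toLin' A) a) (fun h0 => hu.2 (congrArg Subtype.val h0))).1 h1 ⟨y, hy⟩
    exact ⟨c, congrArg Subtype.val hc⟩
  set H := Polynomial.aeval A h with hH
  have hAH : A * H = a • H := by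
    have h1 := Matrix.aeval_self_charpoly A
    rw [hh, map_mul, map_sub, Polynomial.aeval_X, Polynomial.aeval_C, ← hH, sub_mul,
      sub_eq_zero] at h1
    rw [h1, Algebra.algebraMap_eq_smul_one, smul_mul_assoc, one_mul]
  have hcolmem : ∀ j, H.col j ∈ Module.End.eigenspace (Matrix.toLin' A) a := by
    intro j
    rw [Module.End.mem_eigenspace_iff, Matrix.toLin'_apply]
    ext i
    have h1 := congrFun (congrFun hAH i) j
    rw [Matrix.mul_apply', Matrix.smul_apply] at h1
    exact h1
  choose w hw using fun j => hspan _ (hcolmem j)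
  have hHuw : H = vecMulVec u w := by
    ext i j
    have h1 := congrFun (hw j) i
    rw [Pi.smul_apply, smul_eq_mul] at h1
    rw [vecMulVec_apply, mul_comm, h1]
    rfl
  refine ⟨u, w, hu.2, ?_, hHuw⟩
  rintro rfl
  have h1 : H = 0 := by
    rw [hHuw]
    ext i j
    simp [vecMulVec_apply]
  -- `H u = h(a) u`
  have h2 : ∀ p : Polynomial Ω, (Polynomial.aeval A p).mulVec u = p.eval a • u := by
    have hAu : A.mulVec u = a • u := by
      have := Module.End.mem_eigenspace_iff.1 hu.1
      rwa [Matrix.toLin'_apply] at this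
    intro p
    induction p using Polynomial.induction_on' with
    | add p q hp hq => rw [map_add, Matrix.add_mulVec, hp, hq, Polynomial.eval_add, add_smul]
    | monomial m c =>
      have h3 : ∀ m : ℕ, (A ^ m).mulVec u = a ^ m • u := by
        intro m
        induction m with
        | zero => rw [pow_zero, pow_zero, Matrix.one_mulVec, one_smul]
        | succ m ih =>
          rw [pow_succ, ← Matrix.mulVec_mulVec, hAu, Matrix.mulVec_smul, ih, smul_smul,
            pow_succ, mul_comm]
      rw [Polynomial.aeval_monomial, Algebra.algebraMap_eq_smul_one, smul_mul_assoc, one_mul,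
        Matrix.smul_mulVec, h3, smul_smul, Polynomial.eval_monomial]
  have h3 := h2 h
  rw [← hH, h1, Matrix.zero_mulVec] at h3
  rcases smul_eq_zero.1 h3.symm with h4 | h4
  · exact ha h4
  · exact hu.2 h4

/-- Traces of products with polynomials over the subfield. -/
theorem trace_mem {Ω E' : Type*} [Field Ω] [Field E'] (f : E' →+* Ω)
    (r : Q →* GL (Fin n) Ω) (htr : ∀ q, ∃ c : E', f c = (r q : Matrix (Fin n) (Fin n) Ω).trace)
    (g : Q) (h : Polynomial E') (q : Q) : ∃ c : E', f c =
      ((r q : Matrix (Fin n) (Fin n) Ω) *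
        Polynomial.aeval (r g : Matrix (Fin n) (Fin n) Ω) (h.map f)).trace := by
  induction h using Polynomial.induction_on' with
  | add p p' hp hp' =>
    obtain ⟨c, hc⟩ := hp
    obtain ⟨c', hc'⟩ := hp'
    refine ⟨c + c', ?_⟩
    rw [map_add, hc, hc', Polynomial.map_add, map_add, mul_add, Matrix.trace_add]
  | monomial m c =>
    obtain ⟨d, hd⟩ := htr (q * g ^ m)
    refine ⟨c * d, ?_⟩
    rw [map_mul, hd, Polynomial.map_monomial, Polynomial.aeval_monomial,
      Algebra.algebraMap_eq_smul_one, smul_mul_assoc, one_mul, mul_smul_comm, Matrix.trace_smul,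
      smul_eq_mul, map_mul, map_pow, Units.val_mul, Units.val_pow_eq_pow_val]

/-- **Realisation over a field containing a simple eigenvalue.** -/
theorem descent_of_root {Ω E' : Type*} [Field Ω] [Field E'] (f : E' →+* Ω)
    (r : Q →* GL (Fin n) Ω) (hsp : sp r = ⊤)
    (htr : ∀ q, ∃ c : E', f c = (r q : Matrix (Fin n) (Fin n) Ω).trace)
    (g : Q) (p : Polynomial E') (hp : (r g : Matrix (Fin n) (Fin n) Ω).charpoly = p.map f)
    (a : E') (ha : p.rootMultiplicity a = 1) :
    ∃ (X : GL (Fin n) Ω) (r' : Q →* GL (Fin n) E'),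
      ∀ q, (r q : Matrix (Fin n) (Fin n) Ω) * X =
        X * (r' q : Matrix (Fin n) (Fin n) E').map f := by
  have hp0 : p ≠ 0 := by
    rintro rfl
    rw [Polynomial.rootMultiplicity_zero] at ha
    exact zero_ne_one ha
  obtain ⟨h, hh, hha⟩ := Polynomial.exists_eq_pow_rootMultiplicity_mul_and_not_dvd p hp0 a
  rw [ha, pow_one] at hh
  have hev : h.eval a ≠ 0 := fun h0 => hha (Polynomial.dvd_iff_isRoot.2 h0)
  obtain ⟨u, w, hu, hw, huw⟩ := rank_one (r g : Matrix (Fin n) (Fin n) Ω) (f a) (h.map f) (by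
    rw [hp, hh, Polynomial.map_mul, Polynomial.map_sub, Polynomial.map_X, Polynomial.map_C]) (by
    rw [Polynomial.eval_map, Polynomial.eval₂_hom]
    exact (map_ne_zero f).2 hev)
  refine descent f r hsp u w hu hw fun q => ?_
  rw [← huw]
  exact trace_mem f r htr g h q

end Pool.Agent.TH119.RF
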