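import Mathlib
import Pool.Agent.TH119.LG.Main
import Pool.Agent.TH119.IR.Main
import Pool.Agent.TH119.RF.Alg

/-!
# Artin motives with coefficients in small fields
-/

set_option linter.unusedSectionVars false
set_option linter.style.haveILetI false

namespace Pool.Agent.TH119.RF

open NumberField IsDedekindDomain Polynomial Filter Topology
open Pool.Agent.W401.Cheb (GK IsFrob IsInert)
open Pool.Agent.W540.BE (upto nm cheb_mean mem_upto)
open Pool.Agent.TH119.DS (Att finite_char exists_frob_mem)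
open Pool.Agent.TH119.OP (SS sp eq_of_mk)

variable {K E : Type} [Field K] [NumberField K] [Field E] [NumberField E] {n : ℕ}

theorem ss_of_open {k : Type} [Field k] [CharZero k]
    (ρ : GK K →* Matrix.GeneralLinearGroup (Fin n) k) (h : IsOpen (ρ.ker : Set (GK K))) :
    SS ρ := by
  haveI : Finite (GK K ⧸ ρ.ker) := Subgroup.quotient_finite_of_isOpen _ h
  intro W hW
  obtain ⟨W', h1, h2⟩ := ss_of_finite (QuotientGroup.kerLift ρ) W (by
    intro q x hx
    obtain ⟨σ, rfl⟩ := QuotientGroup.mk_surjective q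
    exact hW σ x hx)
  exact ⟨W', fun σ x hx => h1 (QuotientGroup.mk σ) x hx, h2⟩

theorem cont_of_open {k : Type} [Field k] [TopologicalSpace k]
    (ρ : GK K →* Matrix.GeneralLinearGroup (Fin n) k) (h : IsOpen (ρ.ker : Set (GK K))) :
    Continuous fun g => (ρ g : Matrix (Fin n) (Fin n) k) := by
  have h1 : IsLocallyConstant fun g => (ρ g : Matrix (Fin n) (Fin n) k) := by
    rw [IsLocallyConstant.iff_exists_open]
    intro x
    refine ⟨(fun y => x⁻¹ * y) ⁻¹' (ρ.ker : Set (GK K)),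
      h.preimage (continuous_const.mul continuous_id), ?_, ?_⟩
    · rw [Set.mem_preimage, inv_mul_cancel]
      exact ρ.ker.one_mem
    · intro y hy
      have h2 : ρ (x⁻¹ * y) = 1 := hy
      rw [map_mul, map_inv, inv_mul_eq_one] at h2
      simp only [h2]
  exact h1.continuous

/-- Absolute irreducibility of all attached representations. -/
theorem exists_D (hn : 0 < n) (P : HeightOneSpectrum (𝓞 K) → (𝓞 E)[X])
    (S : Set (HeightOneSpectrum (𝓞 K))) (hS : S.Finite)
    (k : Type) [Field k] (ι : E →+* k)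
    (ρ : GK K →* Matrix.GeneralLinearGroup (Fin n) k) (hopen : IsOpen (ρ.ker : Set (GK K)))
    (hfrob : ∀ v ∉ S, ∀ σ, IsFrob v σ → (ρ σ : Matrix (Fin n) (Fin n) k).charpoly =
      (P v).map (ι.comp (algebraMap (𝓞 E) E)))
    (hcusp : ∃ τ : E →+* ℂ, ∃ c < (2 : ℝ), ∃ᶠ N : ℕ in atTop,
      (∑ v ∈ upto K N, ‖τ ((P v).coeff (n - 1) : 𝓞 E)‖ ^ 2) ≤ c * (Nat.primeCounting N : ℝ)) :
    ∃ D : 𝓞 E, D ≠ 0 ∧ ∀ (k' : Type) [Field k'] (φ : 𝓞 E →+* k')
      (ρ' : GK K →* Matrix.GeneralLinearGroup (Fin n) k'), φ D ≠ 0 →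
      IsOpen (ρ'.ker : Set (GK K)) →
      (∀ v ∉ S, ((Ideal.absNorm v.asIdeal : ℕ) : k') ≠ 0 → ∀ σ, IsFrob v σ →
        (ρ' σ : Matrix (Fin n) (Fin n) k').charpoly = (P v).map φ) → sp ρ' = ⊤ := by
  classical
  haveI : CharZero k := charZero_of_injective_ringHom ι.injective
  letI : TopologicalSpace k := ⊥
  haveI : DiscreteTopology k := ⟨rfl⟩
  haveI : Finite (GK K ⧸ ρ.ker) := Subgroup.quotient_finite_of_isOpen _ hopen
  have hfrob0 := (Pool.Agent.W401.Frob.main K).1
  choose s hs using hfrob0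
  have hinj : Function.Injective (Polynomial.map (ι.comp (algebraMap (𝓞 E) E))) :=
    Polynomial.map_injective _
      (ι.injective.comp (FaithfulSMul.algebraMap_injective (𝓞 E) E))
  have hfin : (P '' Sᶜ).Finite := by
    refine Set.Finite.of_finite_image (f := Polynomial.map (ι.comp (algebraMap (𝓞 E) E))) ?_
      hinj.injOn
    refine (Set.finite_range fun q : GK K ⧸ ρ.ker =>
      (QuotientGroup.kerLift ρ q : Matrix (Fin n) (Fin n) k).charpoly).subset ?_
    rintro _ ⟨_, ⟨v, hv, rfl⟩, rfl⟩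
    refine ⟨QuotientGroup.mk (s v), ?_⟩
    change (ρ (s v) : Matrix (Fin n) (Fin n) k).charpoly = _
    exact hfrob v hv _ (hs v)
  obtain ⟨B, hB⟩ : ∃ B : ℝ, ∀ v ∉ S, ∀ τ : E →+* ℂ, ‖τ ((P v).coeff (n - 1) : 𝓞 E)‖ ≤ B := by
    have h1 : (((P '' Sᶜ) ×ˢ (Set.univ : Set (E →+* ℂ))).image fun x : (𝓞 E)[X] × (E →+* ℂ) =>
        ‖x.2 (x.1.coeff (n - 1) : 𝓞 E)‖).Finite := (hfin.prod Set.finite_univ).image _
    obtain ⟨B, hB⟩ := h1.bddAbove
    exact ⟨B, fun v hv τ => hB ⟨(P v, τ), ⟨⟨v, hv, rfl⟩, trivial⟩, rfl⟩⟩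
  have hpi : Tendsto (fun N : ℕ => (Nat.primeCounting N : ℝ)) atTop atTop :=
    tendsto_natCast_atTop_atTop.comp Nat.tendsto_primeCounting
  have hcard : Tendsto (fun N : ℕ => ((upto K N).card : ℝ)) atTop atTop := by
    have h1 := (Pool.Agent.TH119.IR.tendsto_card K).pos_mul_atTop one_pos hpi
    refine h1.congr' ?_
    filter_upwards [hpi.eventually_gt_atTop 0] with N hN
    rw [div_mul_cancel₀ _ hN.ne']
  have hn2 : (0 : ℝ) < 2 * (n : ℝ) ^ 2 := by
    have : (0 : ℝ) < n := by exact_mod_cast hn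
    positivity
  obtain ⟨-, -, h3⟩ := Pool.Agent.TH119.IR.main hn P S hS k ι ρ (cont_of_open ρ hopen)
    (ss_of_open ρ hopen) hfrob B (1 - 1 / (2 * (n : ℝ) ^ 2)) (by
      have h1 : (0 : ℝ) < (n : ℝ) ^ 2 := by linarith
      have h2 : 1 / (2 * (n : ℝ) ^ 2) < 1 / (n : ℝ) ^ 2 :=
        one_div_lt_one_div_of_lt h1 (by linarith)
      linarith) (by
      refine Eventually.frequently ?_
      filter_upwards [hcard.eventually_ge_atTop ((2 * (n : ℝ) ^ 2) * hS.toFinset.card)] with N hN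
      refine ⟨(upto K N).filter fun v => ¬ v ∈ S, ?_, ?_⟩
      · intro v hv
        rw [Finset.mem_filter] at hv
        exact ⟨mem_upto.1 hv.1, hB v hv.2⟩
      · have h1 : (upto K N).card = ((upto K N).filter fun v => v ∈ S).card +
            ((upto K N).filter fun v => ¬ v ∈ S).card :=
          (Finset.card_filter_add_card_filter_not _).symm
        have h2 : ((upto K N).filter fun v => v ∈ S).card ≤ hS.toFinset.card := by
          refine Finset.card_le_card fun v hv => ?_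
          rw [Set.Finite.mem_toFinset]
          exact (Finset.mem_filter.1 hv).2
        have h3 : (((upto K N).filter fun v => v ∈ S).card : ℝ) ≤ hS.toFinset.card := by
          exact_mod_cast h2
        have h4 : (hS.toFinset.card : ℝ) ≤ 1 / (2 * (n : ℝ) ^ 2) * (upto K N).card := by
          rw [one_div, inv_mul_eq_div, le_div_iff₀ hn2]
          linarith
        have h5 : ((upto K N).card : ℝ) = ((upto K N).filter fun v => v ∈ S).card +
            ((upto K N).filter fun v => ¬ v ∈ S).card := by exact_mod_cast h1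
        rw [sub_mul, one_mul]
        linarith)
  obtain ⟨D, hD, h4⟩ := h3 hcusp
  refine ⟨D, hD, fun k' _ φ ρ' hφ hopen' hfrob' => ?_⟩
  letI : TopologicalSpace k' := ⊥
  haveI : DiscreteTopology k' := ⟨rfl⟩
  exact h4 k' φ S ρ' hφ hS (cont_of_open ρ' hopen') hfrob'

/-- A representation over a subfield inherits the properties. -/
theorem inherit (P : HeightOneSpectrum (𝓞 K) → (𝓞 E)[X])
    (S : Set (HeightOneSpectrum (𝓞 K))) {Ω E' : Type} [Field Ω] [Field E'] (f : E →+* E')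
    (g : E' →+* Ω) (r : GK K →* Matrix.GeneralLinearGroup (Fin n) Ω)
    (hopen : IsOpen (r.ker : Set (GK K))) (hunr : ∀ v ∉ S, ∀ σ, IsInert v σ → r σ = 1)
    (hfrob : ∀ v ∉ S, ∀ σ, IsFrob v σ → (r σ : Matrix (Fin n) (Fin n) Ω).charpoly =
      (P v).map ((g.comp f).comp (algebraMap (𝓞 E) E)))
    (X : Matrix.GeneralLinearGroup (Fin n) Ω) (r' : GK K →* Matrix.GeneralLinearGroup (Fin n) E')
    (h : ∀ q, (r q : Matrix (Fin n) (Fin n) Ω) * X = X * (r' q : Matrix (Fin n) (Fin n) E').map g) :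
    IsOpen (r'.ker : Set (GK K)) ∧ (∀ v ∉ S, ∀ σ, IsInert v σ → r' σ = 1) ∧
    ∀ v ∉ S, ∀ σ, IsFrob v σ → (r' σ : Matrix (Fin n) (Fin n) E').charpoly =
      (P v).map (f.comp (algebraMap (𝓞 E) E)) := by
  have h1 : ∀ σ, r σ = 1 → r' σ = 1 := by
    intro σ hσ
    have h2 := h σ
    rw [hσ, Units.val_one, one_mul] at h2
    have h3 : (X : Matrix (Fin n) (Fin n) Ω) * 1 =
        X * (r' σ : Matrix (Fin n) (Fin n) E').map g := by rw [mul_one]; exact h2
    have h4 := X.isUnit.mul_left_cancel h3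
    apply Units.ext
    apply Matrix.map_injective g.injective
    change Matrix.map _ _ = Matrix.map _ _
    rw [← h4, Units.val_one, Matrix.map_one g (map_zero g) (map_one g)]
  refine ⟨?_, fun v hv σ hσ => h1 σ (hunr v hv σ hσ), fun v hv σ hσ => ?_⟩
  · refine Subgroup.isOpen_mono (H₁ := r.ker) ?_ hopen
    intro σ hσ
    exact MonoidHom.mem_ker.2 (h1 σ (MonoidHom.mem_ker.1 hσ))
  · apply Polynomial.map_injective g g.injective
    rw [← Matrix.charpoly_map, Polynomial.map_map, ← RingHom.comp_assoc, ← hfrob v hv σ hσ]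
    have h2 : (r' σ : Matrix (Fin n) (Fin n) E').map g =
        ((X⁻¹ : Matrix.GeneralLinearGroup (Fin n) Ω) : Matrix (Fin n) (Fin n) Ω) * r σ * X := by
      rw [mul_assoc, h σ, ← mul_assoc, ← Units.val_mul, inv_mul_cancel, Units.val_one, one_mul]
    rw [h2, Matrix.coe_units_inv]
    exact Matrix.charpoly_units_conj' X _

/-- A finite set of algebraic numbers generates a number field. -/
theorem number_field (r : GK K →* Matrix.GeneralLinearGroup (Fin n) (AlgebraicClosure E))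
    (hopen : IsOpen (r.ker : Set (GK K))) :
    ∃ (F : IntermediateField E (AlgebraicClosure E)) (_ : NumberField F)
      (r' : GK K →* Matrix.GeneralLinearGroup (Fin n) F),
      ∀ q, (r q : Matrix (Fin n) (Fin n) (AlgebraicClosure E)) =
        (r' q : Matrix (Fin n) (Fin n) F).map (algebraMap F (AlgebraicClosure E)) := by
  classical
  haveI : Finite (GK K ⧸ r.ker) := Subgroup.quotient_finite_of_isOpen _ hopen
  set T : Set (AlgebraicClosure E) := Set.range fun x : (GK K ⧸ r.ker) × Fin n × Fin n =>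
    (QuotientGroup.kerLift r x.1 : Matrix (Fin n) (Fin n) (AlgebraicClosure E)) x.2.1 x.2.2 with hT
  haveI : Finite T := (Set.finite_range _).to_subtype
  set F := IntermediateField.adjoin E T with hF
  haveI : FiniteDimensional E F := IntermediateField.finiteDimensional_adjoin
    fun x _ => Algebra.IsIntegral.isIntegral x
  have hNF : NumberField F := NumberField.of_module_finite E F
  have hmem : ∀ σ i j, (r σ : Matrix (Fin n) (Fin n) (AlgebraicClosure E)) i j ∈ F := by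
    intro σ i j
    exact IntermediateField.subset_adjoin E T ⟨(QuotientGroup.mk σ, i, j), rfl⟩
  have hinj : Function.Injective fun M : Matrix (Fin n) (Fin n) F =>
      M.map (algebraMap F (AlgebraicClosure E)) :=
    Matrix.map_injective (algebraMap F (AlgebraicClosure E)).injective
  let m : GK K → Matrix (Fin n) (Fin n) F := fun σ => Matrix.of fun i j => ⟨_, hmem σ i j⟩
  have hm : ∀ σ, (m σ).map (algebraMap F (AlgebraicClosure E)) = r σ := by
    intro σ
    ext i j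
    rfl
  let A : GK K →* Matrix (Fin n) (Fin n) F :=
    { toFun := m
      map_one' := by
        apply hinj
        change Matrix.map _ _ = Matrix.map _ _
        rw [hm, map_one, Units.val_one, Matrix.map_one _ (map_zero _) (map_one _)]
      map_mul' := fun a b => by
        apply hinj
        change Matrix.map _ _ = Matrix.map _ _
        rw [hm, Matrix.map_mul, hm, hm, map_mul, Units.val_mul] }
  refine ⟨F, hNF, A.toHomUnits, fun q => ?_⟩
  have h1 : (A.toHomUnits q : Matrix (Fin n) (Fin n) F) = m q := MonoidHom.coe_toHomUnits _ _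
  rw [h1, hm]

/-- **Artin motives with coefficients.** -/
theorem artin (hn : 0 < n) (P : HeightOneSpectrum (𝓞 K) → (𝓞 E)[X])
    (S : Set (HeightOneSpectrum (𝓞 K))) (hS : S.Finite)
    (hRS : ∀ ι : E →+* ℂ, ∃ C : ℝ, ∀ (N : ℕ) (T : Finset (HeightOneSpectrum (𝓞 K))),
      (∀ v ∈ T, v ∉ S ∧ Ideal.absNorm v.asIdeal ≤ N) →
      ∑ v ∈ T, ‖ι ((P v).coeff (n - 1) : 𝓞 E)‖ ^ 2 ≤ C * Nat.primeCounting N)
    (hcusp : ∃ τ : E →+* ℂ, ∃ c < (2 : ℝ), ∃ᶠ N : ℕ in atTop,
      (∑ v ∈ upto K N, ‖τ ((P v).coeff (n - 1) : 𝓞 E)‖ ^ 2) ≤ c * (Nat.primeCounting N : ℝ))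
    {J : Type} [Infinite J] {k : J → Type} [∀ j, Field (k j)] (φ : ∀ j, 𝓞 E →+* k j)
    (hφ : ∀ a : 𝓞 E, a ≠ 0 → {j | φ j a = 0}.Finite)
    (ρ : ∀ j, GK K →* Matrix.GeneralLinearGroup (Fin n) (k j))
    (att : ∀ j, Att P S (k j) (φ j) (ρ j)) :
    (∃ (E' : Type) (_ : Field E') (_ : NumberField E') (f : E →+* E')
      (r : GK K →* Matrix.GeneralLinearGroup (Fin n) E'), IsOpen (r.ker : Set (GK K)) ∧
      sp r = ⊤ ∧ (∀ v ∉ S, ∀ σ, IsInert v σ → r σ = 1) ∧
      ∀ v ∉ S, ∀ σ, IsFrob v σ → (r σ : Matrix (Fin n) (Fin n) E').charpoly =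
        (P v).map (f.comp (algebraMap (𝓞 E) E))) ∧
    ∀ (E' : Type) [Field E'] (f : E →+* E'),
      (∃ v ∉ S, ∃ a : E', ((P v).map (f.comp (algebraMap (𝓞 E) E))).rootMultiplicity a = 1) →
      ∃ r : GK K →* Matrix.GeneralLinearGroup (Fin n) E', IsOpen (r.ker : Set (GK K)) ∧
      sp r = ⊤ ∧ (∀ v ∉ S, ∀ σ, IsInert v σ → r σ = 1) ∧
      ∀ v ∉ S, ∀ σ, IsFrob v σ → (r σ : Matrix (Fin n) (Fin n) E').charpoly =
        (P v).map (f.comp (algebraMap (𝓞 E) E)) := by
  classical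
  haveI : Nonempty (Fin n) := ⟨⟨0, hn⟩⟩
  obtain ⟨U, hU, -, hr⟩ := Pool.Agent.TH119.LG.main hn P S hS hRS φ hφ ρ att
  obtain ⟨D, hD, hirr⟩ : ∃ D : 𝓞 E, D ≠ 0 ∧ ∀ (k' : Type) [Field k'] (φ : 𝓞 E →+* k')
      (ρ' : GK K →* Matrix.GeneralLinearGroup (Fin n) k'), φ D ≠ 0 →
      IsOpen (ρ'.ker : Set (GK K)) →
      (∀ v ∉ S, ((Ideal.absNorm v.asIdeal : ℕ) : k') ≠ 0 → ∀ σ, IsFrob v σ →
        (ρ' σ : Matrix (Fin n) (Fin n) k').charpoly = (P v).map φ) → sp ρ' = ⊤ := by
    obtain ⟨r, hrU, -, hfr, -⟩ := hr (AlgebraicClosure E) (algebraMap E (AlgebraicClosure E))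
    exact exists_D hn P S hS (AlgebraicClosure E) (algebraMap E (AlgebraicClosure E)) r
      (by rw [hrU]; exact hU) hfr hcusp
  have hDne : ∀ {k' : Type} [Field k'] (f : E →+* k'), (f.comp (algebraMap (𝓞 E) E)) D ≠ 0 := by
    intro k' _ f h0
    exact hD ((f.injective.comp (FaithfulSMul.algebraMap_injective (𝓞 E) E))
      (h0.trans (map_zero (f.comp (algebraMap (𝓞 E) E))).symm))
  refine ⟨?_, ?_⟩
  · obtain ⟨r, hrU, hunr, hfr, -⟩ := hr (AlgebraicClosure E) (algebraMap E (AlgebraicClosure E))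
    have hopen : IsOpen (r.ker : Set (GK K)) := by rw [hrU]; exact hU
    obtain ⟨F, hF, r', hr'⟩ := number_field r hopen
    obtain ⟨h1, h2, h3⟩ := inherit P S (algebraMap E F) (algebraMap F (AlgebraicClosure E)) r
      hopen hunr (by rw [← IsScalarTower.algebraMap_eq]; exact hfr) 1 r' (fun q => by
        rw [Units.val_one, mul_one, one_mul]
        exact hr' q)
    exact ⟨F, inferInstance, hF, algebraMap E F, r', h1,
      hirr F _ r' (hDne _) h1 fun v hv _ => h3 v hv, h2, h3⟩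
  · rintro E' _ f ⟨v0, hv0, a, ha⟩
    obtain ⟨r, hrU, hunr, hfr, -⟩ := hr (AlgebraicClosure E')
      ((algebraMap E' (AlgebraicClosure E')).comp f)
    have hopen : IsOpen (r.ker : Set (GK K)) := by rw [hrU]; exact hU
    have hsp : sp r = ⊤ := hirr _ _ r (hDne _) hopen fun v hv _ => hfr v hv
    obtain ⟨σ0, hσ0⟩ := (Pool.Agent.W401.Frob.main K).1 v0
    obtain ⟨X, r', hr'⟩ := descent_of_root (algebraMap E' (AlgebraicClosure E')) r hsp (by
      intro σ
      obtain ⟨v, hv, τ, hτ, hτσ⟩ := exists_frob_mem r.ker hopen _ hS σ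
      refine ⟨-(f.comp (algebraMap (𝓞 E) E)) ((P v).coeff (n - 1)), ?_⟩
      rw [← eq_of_mk r r.ker le_rfl hτσ, Matrix.trace_eq_neg_charpoly_coeff, Fintype.card_fin,
        hfr v hv τ hτ, Polynomial.coeff_map, map_neg]
      rfl) σ0 ((P v0).map (f.comp (algebraMap (𝓞 E) E))) (by
      rw [hfr v0 hv0 σ0 hσ0, Polynomial.map_map]
      rfl) a ha
    obtain ⟨h1, h2, h3⟩ := inherit P S f (algebraMap E' (AlgebraicClosure E')) r hopen hunr hfr
      X r' hr'
    exact ⟨r', h1, hirr E' _ r' (hDne _) h1 fun v hv _ => h3 v hv, h2, h3⟩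

end Pool.Agent.TH119.RF
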